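import Pool.Agent.Q216.Onto.Main

set_option autoImplicit false

/-!
The propositional fragment `L₁` of Leśniewski's ontology embeds in Grzegorczyk's modal logic.
The definitions used in the statement are in `Pool/Agent/Q216/Onto/Defs.lean`.
-/

namespace Pool.Agent.Results.MP_36ff06_lc.EmbedsInGrz

open Pool.Agent.Q216.Onto

/-- Grzegorczyk's axiom `□(□(p ⊃ □p) ⊃ p) ⊃ p`. -/
def grzAx : MF :=
  .imp (.box (.imp (.box (.imp (.var 0) (.box (.var 0)))) (.var 0))) (.var 0)

/-- Grzegorczyk's modal logic: the smallest normal modal logic containing `grzAx`. -/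
def Grz : Set MF := normalLogic {grzAx}

/-- There is a modal formula `F(x,y)` such that `t_F` embeds `L₁` in `Grz`. -/
theorem result : ∃ F : MF, Embeds F Grz := by
  refine ⟨F₀, embeds_of _ (fun w u => w = u ∨ (w = .root ∧ ∃ c, u = .leaf c))
    (fun c => Or.inr ⟨rfl, c, rfl⟩) ?_⟩
  rintro φ rfl V w
  unfold grzAx
  rw [sat_imp]
  intro h
  -- worlds that only see themselves
  have hend : ∀ u : World, (∀ u', (u = u' ∨ (u = .root ∧ ∃ c, u' = .leaf c)) → u' = u) →
      (MF.imp (.box (.imp (.var 0) (.box (.var 0)))) (.var 0)).Sat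
        (fun w u => w = u ∨ (w = World.root ∧ ∃ c, u = World.leaf c)) V u → V 0 u := by
    intro u hu h1
    rw [sat_imp] at h1
    apply h1
    intro u' hu'
    rw [sat_imp]
    intro h2 u'' hu''
    have e1 := hu u' hu'
    subst e1
    have e2 := hu u'' hu''
    subst e2
    exact h2
  by_cases hw : w = .root
  · subst hw
    have hleaf : ∀ c, V 0 (.leaf c) := by
      intro c
      refine hend (.leaf c) ?_ (h (.leaf c) (Or.inr ⟨rfl, c, rfl⟩))
      rintro u' (h3 | ⟨h3, -⟩)
      · exact h3.symm
      · cases h3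
    have h4 := h .root (Or.inl rfl)
    rw [sat_imp] at h4
    apply h4
    rintro u (h5 | ⟨-, c, rfl⟩)
    · subst h5
      rw [sat_imp]
      rintro h6 u' (h7 | ⟨-, c, rfl⟩)
      · subst h7; exact h6
      · exact hleaf c
    · rw [sat_imp]
      rintro h6 u' (h7 | ⟨h7, -⟩)
      · subst h7; exact h6
      · cases h7
  · refine hend w ?_ (h w (Or.inl rfl))
    rintro u' (h3 | ⟨h3, -⟩)
    · exact h3.symm
    · exact absurd h3 hw

end Pool.Agent.Results.MP_36ff06_lc.EmbedsInGrz
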